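import Pool.Agent.Helper892.VE.Field
import Pool.Agent.Helper892.VE.Rep

/-!
Extensions of a number field by `N`-th roots of integers.
-/

set_option autoImplicit false

open NumberField Module IntermediateField Polynomial Height

namespace Pool.Agent.Helper892.QR

open Pool.Agent.Y733.VR Pool.Agent.Helper892.VE

/-- the discriminant of `K(A^(1/N))` -/
lemma ld_root (K L : Type) [Field K] [NumberField K] [Field L] [NumberField L] [Algebra K L]
    {N : ℕ} (hN : 1 ≤ N) (A : 𝓞 K) (hA : A ≠ 0) (β : L) (hβ : K⟮β⟯ = ⊤)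
    (h : β ^ N = algebraMap K L A) :
    ld L ≤ ld K + Real.log N +
      (N - 1 : ℝ) / N * (Real.log |(Algebra.norm ℚ (A : K) : ℝ)| / finrank ℚ K) := by
  have hN0 : N ≠ 0 := by omega
  have hNr : (0 : ℝ) < N := by exact_mod_cast hN
  have hint : IsIntegral ℤ β := by
    refine IsIntegral.of_pow hN ?_
    rw [h]
    exact (RingOfIntegers.isIntegral_coe A).algebraMap
  set γ : 𝓞 L := ⟨β, hint⟩ with hγ
  have hγβ : (γ : L) = β := rfl
  have hA0 : (A : K) ≠ 0 := RingOfIntegers.coe_ne_zero_iff.2 hA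
  have hβ0 : β ≠ 0 := by
    rintro rfl
    rw [zero_pow hN0] at h
    exact hA0 ((map_eq_zero _).1 h.symm)
  have hγ0 : γ ≠ 0 := by
    intro h1
    exact hβ0 (by rw [← hγβ, h1]; rfl)
  have hder : aeval γ (derivative (X ^ N - C A)) = (N : 𝓞 L) * γ ^ (N - 1) := by
    rw [derivative_sub, derivative_X_pow, derivative_C, sub_zero]
    simp only [map_mul, map_pow, aeval_X, map_natCast]
  have h1 := ld_le K L γ (by rw [hγβ]; exact hβ) (X ^ N - C A) (by
    rw [map_sub, map_pow, aeval_X, aeval_C, sub_eq_zero]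
    apply RingOfIntegers.ext
    change algebraMap (𝓞 L) L (γ ^ N) = algebraMap K L (algebraMap (𝓞 K) K A)
    rw [map_pow]
    exact h) (by
    rw [hder]
    exact mul_ne_zero (Nat.cast_ne_zero.2 hN0) (pow_ne_zero _ hγ0))
  refine h1.trans ?_
  rw [add_assoc, add_le_add_iff_left]
  have hLpos : (0 : ℝ) < finrank ℚ L := by exact_mod_cast finrank_pos
  have hKpos : (0 : ℝ) < finrank ℚ K := by exact_mod_cast finrank_pos
  have hKL : (0 : ℝ) < finrank K L := by exact_mod_cast finrank_pos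
  have e1 : ((aeval γ (derivative (X ^ N - C A)) : 𝓞 L) : L) = (N : L) * β ^ (N - 1) := by
    rw [hder]
    change algebraMap (𝓞 L) L ((N : 𝓞 L) * γ ^ (N - 1)) = _
    rw [map_mul, map_natCast, map_pow]
    exact congrArg (fun z => (N : L) * z ^ (N - 1)) hγβ
  rw [e1, map_mul, map_pow]
  have e2 : Algebra.norm ℚ (N : L) = (N : ℚ) ^ finrank ℚ L := by
    have := Algebra.norm_algebraMap (R := ℚ) (S := L) (N : ℚ)
    rwa [map_natCast] at this
  have e3 : Algebra.norm ℚ β ^ N = Algebra.norm ℚ (A : K) ^ finrank K L := by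
    rw [← map_pow, h, norm_tower]
  have hNβ0 : Algebra.norm ℚ β ≠ 0 := by
    rw [Algebra.norm_ne_zero_iff]
    exact hβ0
  have e4 : N * Real.log |(Algebra.norm ℚ β : ℝ)| =
      finrank K L * Real.log |(Algebra.norm ℚ (A : K) : ℝ)| := by
    have e5 : (Algebra.norm ℚ β : ℝ) ^ N = (Algebra.norm ℚ (A : K) : ℝ) ^ finrank K L := by
      exact_mod_cast e3
    have e6 := congrArg (fun z : ℝ => Real.log |z|) e5
    simp only [abs_pow, Real.log_pow] at e6
    exact_mod_cast e6
  rw [e2]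
  push_cast
  rw [abs_mul, abs_pow, abs_pow, abs_of_pos hNr, Real.log_mul (by positivity)
    (pow_ne_zero _ (by
      rw [abs_ne_zero]
      exact_mod_cast hNβ0)), Real.log_pow, Real.log_pow, add_div, mul_comm (finrank ℚ L : ℝ),
    mul_div_assoc, div_self hLpos.ne', mul_one, add_le_add_iff_left]
  have e7 : Real.log |(Algebra.norm ℚ β : ℝ)| =
      finrank K L * Real.log |(Algebra.norm ℚ (A : K) : ℝ)| / N := by
    rw [eq_div_iff hNr.ne']
    linarith
  have e8 : ((N - 1 : ℕ) : ℝ) = N - 1 := by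
    rw [Nat.cast_sub hN, Nat.cast_one]
  rw [e7, e8, finrank_tower K L]
  apply le_of_eq
  field_simp

variable (k : Type) [Field k] [NumberField k]

/-- the field generated by an `N`-th root -/
theorem exists_root_field {N : ℕ} (hN : 1 ≤ N) (A : 𝓞 k) (hA : A ≠ 0) :
    ∃ (L : Type) (_ : Field L) (_ : NumberField L) (_ : Algebra k L) (α : L),
      α ^ N = algebraMap k L A ∧ k⟮α⟯ = ⊤ ∧ finrank k L ≤ N ∧
      lD k L ≤ finrank ℚ k * Real.log N +
        (N - 1 : ℝ) / N * Real.log |(Algebra.norm ℚ (A : k) : ℝ)| := by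
  obtain ⟨a, ha⟩ := IsAlgClosed.exists_pow_nat_eq (algebraMap k (AlgebraicClosure k) A)
    (n := N) (by omega)
  have hia : IsIntegral k a := Algebra.IsIntegral.isIntegral a
  set L0 : IntermediateField k (AlgebraicClosure k) := k⟮a⟯ with hL0
  have : FiniteDimensional k L0 := adjoin.finiteDimensional hia
  have : NumberField L0 := NumberField.of_module_finite k L0
  set α : L0 := ⟨a, mem_adjoin_simple_self k a⟩ with hα
  have hα2 : α ^ N = algebraMap k L0 A := Subtype.ext ha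
  have htop : k⟮α⟯ = ⊤ := by
    have h1 : IntermediateField.map L0.val k⟮α⟯ = L0 := by
      rw [adjoin_map, Set.image_singleton]
      rfl
    have h2 : IntermediateField.map L0.val (⊤ : IntermediateField k L0) = L0 := by
      rw [← AlgHom.fieldRange_eq_map, fieldRange_val]
    exact IntermediateField.map_injective L0.val (h1.trans h2.symm)
  refine ⟨L0, inferInstance, inferInstance, inferInstance, α, hα2, htop, ?_, ?_⟩
  · have hroot : aeval a (X ^ N - C (A : k)) = 0 := by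
      rw [map_sub, map_pow, aeval_X, aeval_C, ha, sub_self]
    have hmon : (X ^ N - C (A : k)).Monic := monic_X_pow_sub_C (A : k) (by omega)
    rw [hL0, adjoin.finrank hia]
    refine (natDegree_le_of_dvd (minpoly.dvd k a hroot) hmon.ne_zero).trans ?_
    rw [natDegree_X_pow_sub_C]
  · have b1 := ld_root k L0 hN A hA α htop hα2
    rw [lD_eq]
    have hkpos : (0 : ℝ) < finrank ℚ k := by exact_mod_cast finrank_pos
    have e2 : ld L0 - ld k ≤ Real.log N +
        (N - 1 : ℝ) / N * (Real.log |(Algebra.norm ℚ (A : k) : ℝ)| / finrank ℚ k) := by linarith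
    refine (mul_le_mul_of_nonneg_left e2 hkpos.le).trans (le_of_eq ?_)
    field_simp

/-- the values of a polynomial, up to `N`-th powers -/
theorem exists_int_pow (Φ : (𝓞 k)[X]) (N e : ℕ) (he : Φ.natDegree ≤ N * e) : ∃ C : ℝ, ∀ x : k,
    aeval x Φ ≠ 0 → ∃ (A : 𝓞 k) (s : k), s ≠ 0 ∧ A ≠ 0 ∧ (A : k) = s ^ N * aeval x Φ ∧
      Real.log |(Algebra.norm ℚ (A : k) : ℝ)| ≤ N * e * logHeight₁ x + C := by
  obtain ⟨C, hC⟩ := log_norm_frm k Φ (N * e)
  refine ⟨C, fun x hx => ?_⟩
  obtain ⟨p, q, hq, hpq, harch⟩ := (exists_frac k).choose_spec.2 x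
  have hqk : (q : k) ≠ 0 := RingOfIntegers.coe_ne_zero_iff.2 hq
  have e1 := frm_eq k he hpq
  have e2 : frm Φ (N * e) p q ≠ 0 := by
    apply ne_of_coe
    rw [e1]
    exact mul_ne_zero (pow_ne_zero _ hqk) hx
  refine ⟨frm Φ (N * e) p q, (q : k) ^ e, pow_ne_zero _ hqk, e2, ?_, ?_⟩
  · rw [e1, ← pow_mul, mul_comm e N]
  · have := hC x p q harch e2
    push_cast at this
    exact this

/-- the same for polynomials over `k` -/
theorem exists_int_pow' (Φ : k[X]) {N : ℕ} (hN : 1 ≤ N) (e : ℕ) (he : Φ.natDegree ≤ N * e) :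
    ∃ C : ℝ, ∀ x : k,
    Φ.eval x ≠ 0 → ∃ (A : 𝓞 k) (s : k), s ≠ 0 ∧ A ≠ 0 ∧ (A : k) = s ^ N * Φ.eval x ∧
      Real.log |(Algebra.norm ℚ (A : k) : ℝ)| ≤ N * e * logHeight₁ x + C := by
  obtain ⟨b, hbM, hb⟩ := IsLocalization.integerNormalization_spec (nonZeroDivisors (𝓞 k)) Φ
  set Ψ : (𝓞 k)[X] := IsLocalization.integerNormalization (nonZeroDivisors (𝓞 k)) Φ with hΨ
  have hb0 : b ≠ 0 := nonZeroDivisors.ne_zero hbM
  have hbk : (b : k) ≠ 0 := RingOfIntegers.coe_ne_zero_iff.2 hb0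
  have hdeg : (C (b ^ (N - 1)) * Ψ).natDegree ≤ N * e := by
    refine (natDegree_C_mul_le _ _).trans ?_
    have h1 : (Ψ.map (algebraMap (𝓞 k) k)).natDegree = Ψ.natDegree :=
      natDegree_map_eq_of_injective (RingOfIntegers.coe_injective) _
    rw [← h1, hb]
    exact (natDegree_smul_le _ _).trans he
  obtain ⟨C0, hC⟩ := exists_int_pow k (C (b ^ (N - 1)) * Ψ) N e hdeg
  refine ⟨C0, fun x hx => ?_⟩
  have h2 : aeval x (C (b ^ (N - 1)) * Ψ) = (b : k) ^ N * Φ.eval x := by
    have h3 : (Ψ.map (algebraMap (𝓞 k) k)).eval x = (b : k) * Φ.eval x := by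
      rw [hb, eval_smul]
      rfl
    rw [map_mul, aeval_C, map_pow, ← eval_map_algebraMap Ψ x, h3]
    change (b : k) ^ (N - 1) * ((b : k) * _) = _
    rw [← mul_assoc, ← pow_succ, Nat.sub_add_cancel hN]
  obtain ⟨A, s, hs, hA, e1, e2⟩ := hC x (by rw [h2]; exact mul_ne_zero (pow_ne_zero _ hbk) hx)
  refine ⟨A, s * (b : k), mul_ne_zero hs hbk, hA, ?_, e2⟩
  rw [e1, h2]
  ring

end Pool.Agent.Helper892.QR
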