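import Pool.Agent.Helper892.QR.Main

/-!
Cyclic covers of elliptic surfaces of tridegree `(2, 2, e)`: the main estimate.
-/

set_option autoImplicit false

open NumberField Module Polynomial Height IntermediateField

namespace Pool.Agent.Helper892.QR

open Pool.Agent.Helper892.VE

variable {k : Type} [Field k] [NumberField k]

lemma infinite_int (Q Q' : k[X]) (hQ : Q ≠ 0) (hQ' : Q' ≠ 0) (T : ℝ) :
    {z : k | (∃ n : ℕ, z = n) ∧ Q.eval z ≠ 0 ∧ Q'.eval z ≠ 0 ∧ T < logHeight₁ z}.Infinite := by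
  classical
  have h1 : (Set.range fun n : ℕ => (n : k)).Infinite :=
    Set.infinite_range_of_injective Nat.cast_injective
  intro hfin
  apply h1
  refine (((hfin.union (Q.roots.toFinset.finite_toSet)).union
    (Q'.roots.toFinset.finite_toSet)).union
      (NumberField.finite_setOfPred_logHeight₁_le k T)).subset ?_
  rintro _ ⟨n, rfl⟩
  by_cases h2 : Q.eval (n : k) = 0
  · left; left; right
    rw [Finset.mem_coe, Multiset.mem_toFinset, mem_roots hQ]
    exact h2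
  · by_cases h3 : Q'.eval (n : k) = 0
    · left; right
      rw [Finset.mem_coe, Multiset.mem_toFinset, mem_roots hQ']
      exact h3
    · by_cases h4 : T < logHeight₁ (n : k)
      · left; left; left
        exact ⟨⟨n, rfl⟩, h2, h3, h4⟩
      · right
        exact not_lt.1 h4

theorem core {N e : ℕ} (hN : 1 ≤ N) (a b c : ℕ) {α β γ δ η : k[X]} (hα : α.natDegree ≤ e)
    (hβ : β.natDegree ≤ e) (hγ : γ.natDegree ≤ e) (hδ : δ.natDegree ≤ e) (hη : η.natDegree ≤ e)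
    (hα0 : α.eval 0 = 0) (hβ0 : β.eval 0 = 0) (hγ0 : γ.eval 0 = 1) (hδ0 : δ.eval 0 = -3)
    (hη0 : η.eval 0 = 0) (G : MvPolynomial (Fin 3) k)
    (ha : G.degreeOf 0 ≤ N * a) (hb : G.degreeOf 1 ≤ N * b) (hc : G.degreeOf 2 ≤ N * c)
    (Γ : k[X][X]) (hΓ : Γ ≠ 0) (ε B τ : ℝ) (hτ : 0 ≤ τ)
    (hV : ∀ (L : Type) [Field L] [NumberField L] [Algebra k L] (x y z : k) (w : L),
      (∃ n : ℕ, z = n) →
      FF (α.eval z) (β.eval z) (γ.eval z) (δ.eval z) (η.eval z) x y = 0 →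
      w ^ N = algebraMap k L (MvPolynomial.eval ![x, y, z] G) → k⟮w⟯ = ⊤ → finrank k L ≤ N →
      Γ.evalEval z y ≠ 0 →
      (N - 1) * a * logHeight₁ x + (N - 1) * b * logHeight₁ y + ((N - 1) * c + τ) * logHeight₁ z ≤
        lD k L + ε * (logHeight₁ x + logHeight₁ y + logHeight₁ z) + B)
    (n : ℕ) (hn : ε * (e * n ^ 2 + 1) < τ) : n < Γ.natDegree := by
  obtain ⟨P, Q, hPQ⟩ := exists_seq hα hβ hγ hδ hη hα0 hβ0 hγ0 hδ0 hη0
  refine deg_of_zeros Γ hΓ P Q n (fun j _ => (hPQ (j + 1)).2.1) (fun j _ => (hPQ (j + 1)).2.2.1) ?_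
  intro j hj
  obtain ⟨c1, q1, p1, F1, d1⟩ := hPQ j
  obtain ⟨c2, q2, p2, F2, d2⟩ := hPQ (j + 1)
  have Q1 : Q j ≠ 0 := by intro h; rw [h] at q1; exact q1 eval_zero
  have Q2 : Q (j + 1) ≠ 0 := by intro h; rw [h] at q2; exact q2 eval_zero
  obtain ⟨C1, h1⟩ := ratio_height c1 Q1
  obtain ⟨C2, h2⟩ := ratio_height c2 Q2
  obtain ⟨C0, h0⟩ := exists_cpoint hN a b c G ha hb hc (P j) (Q j) (P (j + 1)) (Q (j + 1))
  set m := dg (P j) (Q j) with hm
  set m' := dg (P (j + 1)) (Q (j + 1)) with hm'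
  have hmm : m + m' ≤ e * n ^ 2 := by
    have e1 : 2 * (m + m') ≤ 2 * (e * j ^ 2) := by
      rcases j with _ | j
      · simp only [Nat.zero_add, Nat.sub_self] at d1 d2 ⊢
        omega
      · simp only [Nat.add_sub_cancel] at d1 d2 ⊢
        nlinarith
    have e2 : e * j ^ 2 ≤ e * n ^ 2 := Nat.mul_le_mul_left _ (Nat.pow_le_pow_left hj 2)
    omega
  have hmmr : (m : ℝ) + m' ≤ e * n ^ 2 := by exact_mod_cast hmm
  set d : ℝ := τ - ε * (m + m' + 1) with hd
  have hd0 : 0 < d := by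
    have hp : (0 : ℝ) ≤ m + m' := by positivity
    rcases le_or_gt 0 ε with hε | hε
    · have : ε * (m + m' + 1) ≤ ε * (e * n ^ 2 + 1) := mul_le_mul_of_nonneg_left (by linarith) hε
      linarith
    · have : ε * (m + m' + 1) < 0 := mul_neg_of_neg_of_pos hε (by linarith)
      linarith
  set T : ℝ := ((N - 1) * (a * C1 + b * C2) + C0 + |ε| * (C1 + C2) + B) / d with hT
  refine (infinite_int (Q j) (Q (j + 1)) Q1 Q2 T).mono ?_
  rintro z ⟨hzn, hz1, hz2, hzT⟩
  refine ⟨hz2, ?_⟩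
  by_contra hne
  obtain ⟨L, iF, iN, iA, w, hw, htop, hdeg, hld⟩ := h0 z hz1 hz2
  have hFz : FF (α.eval z) (β.eval z) (γ.eval z) (δ.eval z) (η.eval z) ((P j).eval z / (Q j).eval z)
      ((P (j + 1)).eval z / (Q (j + 1)).eval z) = 0 := by
    refine FF_div hz1 hz2 ?_
    have := congrArg (eval z) F1
    unfold FH at this ⊢
    simpa using this
  have h3 := hV L _ _ z w hzn hFz hw htop hdeg hne
  have g1 := h1 z hz1
  have g2 := h2 z hz2
  set X := logHeight₁ ((P j).eval z / (Q j).eval z) with hX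
  set Y := logHeight₁ ((P (j + 1)).eval z / (Q (j + 1)).eval z) with hY
  set Z := logHeight₁ z with hZ
  have hNr : (0 : ℝ) ≤ N - 1 := by
    have : (1 : ℝ) ≤ N := by exact_mod_cast hN
    linarith
  have f1 : ε * (X - m * Z) ≤ |ε| * C1 := by
    calc ε * (X - m * Z) ≤ |ε * (X - m * Z)| := le_abs_self _
      _ = |ε| * |X - m * Z| := abs_mul _ _
      _ ≤ |ε| * C1 := mul_le_mul_of_nonneg_left g1 (abs_nonneg _)
  have f2 : ε * (Y - m' * Z) ≤ |ε| * C2 := by
    calc ε * (Y - m' * Z) ≤ |ε * (Y - m' * Z)| := le_abs_self _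
      _ = |ε| * |Y - m' * Z| := abs_mul _ _
      _ ≤ |ε| * C2 := mul_le_mul_of_nonneg_left g2 (abs_nonneg _)
  rw [abs_le] at g1 g2
  have f3 : ((N : ℝ) - 1) * a * (m * Z - C1) ≤ (N - 1) * a * X :=
    mul_le_mul_of_nonneg_left (by linarith [g1.1]) (by positivity)
  have f4 : ((N : ℝ) - 1) * b * (m' * Z - C2) ≤ (N - 1) * b * Y :=
    mul_le_mul_of_nonneg_left (by linarith [g2.1]) (by positivity)
  have f5 : d * Z ≤ (N - 1) * (a * C1 + b * C2) + C0 + |ε| * (C1 + C2) + B := by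
    rw [hd]
    nlinarith
  have f6 : Z ≤ T := by
    rw [hT, le_div_iff₀ hd0, mul_comm]
    exact f5
  linarith

end Pool.Agent.Helper892.QR
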