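import Pool.Agent.Helper892.QR.Seq
import Pool.Agent.Helper892.QR.FieldN
import Pool.Agent.Helper892.VE.Quot
import Pool.Agent.Y557.NF.CurveHt

/-!
Cyclic covers of elliptic surfaces of tridegree `(2, 2, e)`: points over the curves of `Seq`.
-/

set_option autoImplicit false

open NumberField Module Polynomial Height IntermediateField

namespace Pool.Agent.Helper892.QR

open Pool.Agent.Helper892.VE

section alg

variable {K : Type} [Field K]

/-- the equation of the branch curve on a rational curve -/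
noncomputable def brn (G : MvPolynomial (Fin 3) K) (a b : ℕ) (P Q P' Q' : K[X]) : K[X] :=
  ∑ m ∈ G.support, C (G.coeff m) * (P ^ m 0 * Q ^ (a - m 0)) * (P' ^ m 1 * Q' ^ (b - m 1)) * X ^ m 2

lemma brn_eval {G : MvPolynomial (Fin 3) K} {a b : ℕ} (ha : G.degreeOf 0 ≤ a)
    (hb : G.degreeOf 1 ≤ b) (P : K[X]) {Q : K[X]} (P' : K[X]) {Q' : K[X]} {z : K}
    (hQ : Q.eval z ≠ 0) (hQ' : Q'.eval z ≠ 0) :
    (brn G a b P Q P' Q').eval z = Q.eval z ^ a * Q'.eval z ^ b *
      MvPolynomial.eval ![P.eval z / Q.eval z, P'.eval z / Q'.eval z, z] G := by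
  unfold brn
  rw [MvPolynomial.eval_eq', eval_finset_sum, Finset.mul_sum]
  refine Finset.sum_congr rfl fun m hm => ?_
  have h0 := MvPolynomial.degreeOf_le_iff.1 ha m hm
  have h1 := MvPolynomial.degreeOf_le_iff.1 hb m hm
  simp only [eval_mul, eval_pow, eval_C, eval_X, Fin.prod_univ_three, Matrix.cons_val_zero,
    Matrix.cons_val_one, Matrix.cons_val]
  have e0 : Q.eval z ^ a = Q.eval z ^ m 0 * Q.eval z ^ (a - m 0) := by
    rw [← pow_add]; congr 1; omega
  have e1 : Q'.eval z ^ b = Q'.eval z ^ m 1 * Q'.eval z ^ (b - m 1) := by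
    rw [← pow_add]; congr 1; omega
  rw [e0, e1, div_pow, div_pow]
  field_simp

lemma brn_deg {G : MvPolynomial (Fin 3) K} {a b c : ℕ} (ha : G.degreeOf 0 ≤ a)
    (hb : G.degreeOf 1 ≤ b) (hc : G.degreeOf 2 ≤ c) (P Q P' Q' : K[X]) :
    (brn G a b P Q P' Q').natDegree ≤ a * dg P Q + b * dg P' Q' + c := by
  unfold brn
  refine natDegree_sum_le_of_forall_le _ _ fun m hm => ?_
  have h0 := MvPolynomial.degreeOf_le_iff.1 ha m hm
  have h1 := MvPolynomial.degreeOf_le_iff.1 hb m hm
  have h2 := MvPolynomial.degreeOf_le_iff.1 hc m hm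
  have key : ∀ (P Q : K[X]) (i a : ℕ), i ≤ a → (P ^ i * Q ^ (a - i)).natDegree ≤ a * dg P Q := by
    intro P Q i a hi
    refine natDegree_mul_le.trans ?_
    have e1 : (P ^ i).natDegree ≤ i * dg P Q :=
      natDegree_pow_le.trans (Nat.mul_le_mul_left _ (le_max_left _ _))
    have e2 : (Q ^ (a - i)).natDegree ≤ (a - i) * dg P Q :=
      natDegree_pow_le.trans (Nat.mul_le_mul_left _ (le_max_right _ _))
    calc _ ≤ i * dg P Q + (a - i) * dg P Q := add_le_add e1 e2
      _ = a * dg P Q := by rw [← add_mul]; congr 1; omega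
  refine natDegree_mul_le.trans ?_
  rw [natDegree_X_pow]
  refine add_le_add (natDegree_mul_le.trans (add_le_add ?_ (key _ _ _ _ h1))) h2
  refine (natDegree_C_mul_le _ _).trans (key _ _ _ _ h0)

/-- distinct rational functions in the zero set of a polynomial -/
lemma deg_of_zeros [CharZero K] (Γ : K[X][X]) (hΓ : Γ ≠ 0) (P Q : ℕ → K[X]) (n : ℕ)
    (hQ : ∀ j ≤ n, (Q (j + 1)).eval 0 ≠ 0)
    (hP : ∀ j ≤ n, (P (j + 1)).eval 0 = (uu (j + 1) : K) * (Q (j + 1)).eval 0)
    (h : ∀ j ≤ n, {z : K | (Q (j + 1)).eval z ≠ 0 ∧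
      Γ.evalEval z ((P (j + 1)).eval z / (Q (j + 1)).eval z) = 0}.Infinite) :
    n < Γ.natDegree := by
  classical
  set φ := algebraMap K[X] (FractionRing K[X]) with hφ
  have hinj : Function.Injective φ := IsFractionRing.injective K[X] (FractionRing K[X])
  have hQ0 : ∀ j ≤ n, Q (j + 1) ≠ 0 := fun j hj h0 => hQ j hj (by rw [h0, eval_zero])
  have hQφ : ∀ j ≤ n, φ (Q (j + 1)) ≠ 0 := fun j hj => by
    rw [Ne, map_eq_zero_iff φ hinj]
    exact hQ0 j hj
  set r : ℕ → FractionRing K[X] := fun j => φ (P (j + 1)) / φ (Q (j + 1)) with hr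
  -- the values are roots
  have hroot : ∀ j ≤ n, (Γ.map φ).eval (r j) = 0 := by
    intro j hj
    set d := Γ.natDegree with hd
    set R : K[X] := ∑ i ∈ Finset.range (d + 1),
      Γ.coeff i * P (j + 1) ^ i * Q (j + 1) ^ (d - i) with hR
    have hev : ∀ z : K, (Q (j + 1)).eval z ≠ 0 → R.eval z = (Q (j + 1)).eval z ^ d *
        Γ.evalEval z ((P (j + 1)).eval z / (Q (j + 1)).eval z) := by
      intro z hz
      have e1 : Γ.evalEval z ((P (j + 1)).eval z / (Q (j + 1)).eval z) =
          ∑ i ∈ Finset.range (d + 1), (Γ.coeff i).eval z *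
            ((P (j + 1)).eval z / (Q (j + 1)).eval z) ^ i := by
        unfold evalEval
        rw [eval_eq_sum_range (p := Γ) (C ((P (j + 1)).eval z / (Q (j + 1)).eval z)),
          eval_finset_sum]
        refine Finset.sum_congr rfl fun i _ => ?_
        rw [eval_mul, eval_pow, eval_C]
      rw [e1, hR, eval_finset_sum, Finset.mul_sum]
      refine Finset.sum_congr rfl fun i hi => ?_
      have hi' : i ≤ d := by rw [Finset.mem_range] at hi; omega
      have e2 : (Q (j + 1)).eval z ^ d = (Q (j + 1)).eval z ^ i * (Q (j + 1)).eval z ^ (d - i) := by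
        rw [← pow_add]; congr 1; omega
      rw [eval_mul, eval_mul, eval_pow, eval_pow, e2, div_pow]
      field_simp
    have hR0 : R = 0 := by
      by_contra hne
      refine h j hj ((R.roots.toFinset.finite_toSet).subset ?_)
      rintro z ⟨hz1, hz2⟩
      rw [Finset.mem_coe, Multiset.mem_toFinset, mem_roots hne, IsRoot, hev z hz1, hz2, mul_zero]
    have e3 : φ R = φ (Q (j + 1)) ^ d * (Γ.map φ).eval (r j) := by
      rw [eval_map, eval₂_eq_sum_range, hR, map_sum, Finset.mul_sum]
      refine Finset.sum_congr rfl fun i hi => ?_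
      have hi' : i ≤ d := by rw [Finset.mem_range] at hi; omega
      have e2 : φ (Q (j + 1)) ^ d = φ (Q (j + 1)) ^ i * φ (Q (j + 1)) ^ (d - i) := by
        rw [← pow_add]; congr 1; omega
      rw [map_mul, map_mul, map_pow, map_pow, e2, hr]
      simp only
      rw [div_pow]
      have := hQφ j hj
      field_simp
    rw [hR0, map_zero] at e3
    exact (mul_eq_zero.1 e3.symm).resolve_left (pow_ne_zero _ (hQφ j hj))
  -- they are distinct
  have hdist : ∀ i ≤ n, ∀ j ≤ n, r i = r j → i = j := by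
    intro i hi j hj hij
    rw [hr] at hij
    simp only at hij
    rw [div_eq_div_iff (hQφ i hi) (hQφ j hj), ← map_mul, ← map_mul] at hij
    have h1 := congrArg (eval 0) (hinj hij)
    rw [eval_mul, eval_mul, hP i hi, hP j hj] at h1
    have h2 : ((uu (i + 1) : K) - uu (j + 1)) * ((Q (i + 1)).eval 0 * (Q (j + 1)).eval 0) = 0 := by
      linear_combination h1
    have h3 := (mul_eq_zero.1 h2).resolve_right (mul_ne_zero (hQ i hi) (hQ j hj))
    have h4 : uu (i + 1) = uu (j + 1) := by exact_mod_cast sub_eq_zero.1 h3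
    exact Nat.succ_injective (uu_anti.injective h4)
  have hΓ' : Γ.map φ ≠ 0 := (Polynomial.map_ne_zero_iff hinj).2 hΓ
  have hsub : (Finset.range (n + 1)).image r ⊆ (Γ.map φ).roots.toFinset := by
    intro x hx
    rw [Finset.mem_image] at hx
    obtain ⟨j, hj, rfl⟩ := hx
    rw [Finset.mem_range] at hj
    rw [Multiset.mem_toFinset, mem_roots hΓ']
    exact hroot j (by omega)
  have hcard : ((Finset.range (n + 1)).image r).card = n + 1 := by
    rw [Finset.card_image_of_injOn, Finset.card_range]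
    intro i hi j hj hij
    rw [Finset.mem_coe, Finset.mem_range] at hi hj
    exact hdist i (by omega) j (by omega) hij
  have h1 := Finset.card_le_card hsub
  rw [hcard] at h1
  have h2 := (Multiset.toFinset_card_le (Γ.map φ).roots).trans (card_roots' (Γ.map φ))
  rw [natDegree_map_eq_of_injective hinj] at h2
  omega

end alg

section nf

variable {k : Type} [Field k] [NumberField k]

/-- the heights of the values of a rational function -/
lemma ratio_height {P Q : k[X]} (hc : IsCoprime P Q) (hQ0 : Q ≠ 0) : ∃ C : ℝ, ∀ z : k,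
    Q.eval z ≠ 0 → |logHeight₁ (P.eval z / Q.eval z) - dg P Q * logHeight₁ z| ≤ C := by
  obtain ⟨C1, h1⟩ := Pool.Agent.Y557.NF.curve_height_le (K := k) ![P, Q] (D := dg P Q) (by
    intro i
    fin_cases i
    · exact le_max_left _ _
    · exact le_max_right _ _)
  obtain ⟨u, v, huv⟩ := hc
  obtain ⟨C2, h2⟩ := Pool.Agent.Y557.NF.le_curve_height (K := k) ![P, Q] ⟨![u, v], by
    rw [Fin.sum_univ_two]
    exact huv⟩ (D := dg P Q) (by
    intro i
    fin_cases i
    · exact le_max_left _ _
    · exact le_max_right _ _) (by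
    by_cases hP : P = 0
    · refine ⟨1, ?_, hQ0⟩
      simp only [Matrix.cons_val_one, Matrix.cons_val_zero, dg, hP, natDegree_zero]
      omega
    · rcases le_total P.natDegree Q.natDegree with h | h
      · exact ⟨1, (max_eq_right h).symm, hQ0⟩
      · exact ⟨0, (max_eq_left h).symm, hP⟩)
  refine ⟨max C1 (-C2), fun z hz => ?_⟩
  have e : (fun i => ((![P, Q] : Fin 2 → k[X]) i).eval z) = Q.eval z • ![P.eval z / Q.eval z, 1] := by
    funext i
    fin_cases i
    · simp only [Fin.zero_eta, Matrix.cons_val_zero, Pi.smul_apply, smul_eq_mul]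
      field_simp
    · simp
  have h3 := h1 z
  have h4 := h2 z
  rw [e, logHeight_smul_eq_logHeight _ hz, ← logHeight₁_eq_logHeight] at h3 h4
  rw [abs_le]
  have := le_max_left C1 (-C2)
  have := le_max_right C1 (-C2)
  constructor <;> linarith

/-- the discriminants of the points over a rational curve -/
theorem exists_cpoint {N : ℕ} (hN : 1 ≤ N) (a b c : ℕ) (G : MvPolynomial (Fin 3) k)
    (ha : G.degreeOf 0 ≤ N * a) (hb : G.degreeOf 1 ≤ N * b) (hc : G.degreeOf 2 ≤ N * c)
    (P Q P' Q' : k[X]) : ∃ C₀ : ℝ, ∀ z : k, Q.eval z ≠ 0 → Q'.eval z ≠ 0 →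
    ∃ (L : Type) (_ : Field L) (_ : NumberField L) (_ : Algebra k L) (w : L),
      w ^ N = algebraMap k L
        (MvPolynomial.eval ![P.eval z / Q.eval z, P'.eval z / Q'.eval z, z] G) ∧
      k⟮w⟯ = ⊤ ∧ finrank k L ≤ N ∧
      lD k L ≤ (N - 1) * (a * dg P Q + b * dg P' Q' + c) * logHeight₁ z + C₀ := by
  have hN0 : N ≠ 0 := by omega
  have hNr : (0 : ℝ) < N := by exact_mod_cast hN
  have hdeg : (brn G (N * a) (N * b) P Q P' Q').natDegree ≤
      N * (a * dg P Q + b * dg P' Q' + c) := by
    refine (brn_deg ha hb hc P Q P' Q').trans (le_of_eq ?_)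
    ring
  obtain ⟨C1, h1⟩ := exists_int_pow' k (brn G (N * a) (N * b) P Q P' Q') hN _ hdeg
  refine ⟨finrank ℚ k * Real.log N + |C1|, fun z hQ hQ' => ?_⟩
  have hN1 : (0 : ℝ) ≤ (N - 1 : ℝ) := by
    have : (1 : ℝ) ≤ N := by exact_mod_cast hN
    linarith
  have hlogN : 0 ≤ (finrank ℚ k : ℝ) * Real.log N :=
    mul_nonneg (Nat.cast_nonneg _) (Real.log_nonneg (by exact_mod_cast hN))
  have hht : (0 : ℝ) ≤ logHeight₁ z := by
    rw [logHeight₁_eq_logHeight]
    exact logHeight_nonneg _
  have hbe := brn_eval ha hb P P' hQ hQ'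
  by_cases h0 : (brn G (N * a) (N * b) P Q P' Q').eval z = 0
  · have hG0 : MvPolynomial.eval ![P.eval z / Q.eval z, P'.eval z / Q'.eval z, z] G = 0 := by
      rw [h0] at hbe
      exact (mul_eq_zero.1 hbe.symm).resolve_left
        (mul_ne_zero (pow_ne_zero _ hQ) (pow_ne_zero _ hQ'))
    refine ⟨k, inferInstance, inferInstance, Algebra.id k, 0, ?_, ?_, ?_, ?_⟩
    · rw [hG0, map_zero, zero_pow hN0]
    · rw [eq_top_iff]
      intro x _
      exact IntermediateField.algebraMap_mem _ x
    · rw [finrank_self]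
      exact hN
    · have e1 : lD k k = 0 := by
        unfold lD
        rw [finrank_self, Nat.cast_one, div_one, sub_self]
      rw [e1]
      have e2 : (0 : ℝ) ≤ a * dg P Q + b * dg P' Q' + c := by positivity
      have := abs_nonneg C1
      positivity
  · obtain ⟨A, s, hs, hA, eA, hAn⟩ := h1 z h0
    obtain ⟨L, iF, iN, iA, α, hα, htop, hdegL, hld⟩ := exists_root_field k hN A hA
    have m0 : ∀ x : k, x ≠ 0 → algebraMap k L x ≠ 0 := fun x hx => by rwa [Ne, map_eq_zero]
    set t : k := s * (Q.eval z ^ a * Q'.eval z ^ b) with ht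
    have ht0 : t ≠ 0 := mul_ne_zero hs (mul_ne_zero (pow_ne_zero _ hQ) (pow_ne_zero _ hQ'))
    have eA2 : (A : k) = t ^ N *
        MvPolynomial.eval ![P.eval z / Q.eval z, P'.eval z / Q'.eval z, z] G := by
      rw [eA, hbe, ht]
      ring
    refine ⟨L, iF, iN, iA, α / algebraMap k L t, ?_, ?_, hdegL, ?_⟩
    · rw [div_pow, hα, eA2, map_mul, map_pow]
      have := pow_ne_zero N (m0 t ht0)
      field_simp
    · rw [eq_top_iff, ← htop, adjoin_le_iff]
      intro x hx
      rw [Set.mem_singleton_iff] at hx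
      rw [hx]
      have e : (α / algebraMap k L t) * algebraMap k L t = α := by
        have := m0 t ht0
        field_simp
      have hmem := mul_mem (mem_adjoin_simple_self k (α / algebraMap k L t))
        (IntermediateField.algebraMap_mem k⟮α / algebraMap k L t⟯ t)
      rwa [e] at hmem
    · refine hld.trans ?_
      have e3 : (N - 1 : ℝ) / N * Real.log |(Algebra.norm ℚ (A : k) : ℝ)| ≤
          (N - 1 : ℝ) / N * (N * ((a * dg P Q + b * dg P' Q' + c : ℕ) : ℝ) * logHeight₁ z + C1) :=
        mul_le_mul_of_nonneg_left hAn (div_nonneg hN1 hNr.le)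
      have e4 : (N - 1 : ℝ) / N * C1 ≤ |C1| := by
        have e5 : (N - 1 : ℝ) / N ≤ 1 := by
          rw [div_le_one hNr]; linarith
        have e6 : (0 : ℝ) ≤ (N - 1 : ℝ) / N := div_nonneg hN1 hNr.le
        calc (N - 1 : ℝ) / N * C1 ≤ (N - 1 : ℝ) / N * |C1| :=
              mul_le_mul_of_nonneg_left (le_abs_self _) e6
          _ ≤ 1 * |C1| := mul_le_mul_of_nonneg_right e5 (abs_nonneg _)
          _ = |C1| := one_mul _
      push_cast at e3 ⊢
      have e7 : (N - 1 : ℝ) / N * (N * (a * dg P Q + b * dg P' Q' + c) * logHeight₁ z + C1) =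
          (N - 1) * (a * dg P Q + b * dg P' Q' + c) * logHeight₁ z + (N - 1 : ℝ) / N * C1 := by
        field_simp
      rw [e7] at e3
      linarith

end nf

end Pool.Agent.Helper892.QR
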