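import Mathlib

/-!
Rational curves on the surfaces `F(x, y; z) = 0` with `F` symmetric and biquadratic in `x` and `y`
which contain the line `x = 1`, `y = 0`: the orbit of this curve under the map
`(x, y) ↦ (y, x')`, `x'` the second root of `F(X, y; z) = 0`.
-/

set_option autoImplicit false

open Polynomial

namespace Pool.Agent.Helper892.QR

section form

variable {R : Type} [CommRing R]

/-- the symmetric biquadratic polynomial -/
def FF (α β γ δ η x y : R) : R :=
  α * x ^ 2 * y ^ 2 + β * x * y * (x + y) + γ * (x ^ 2 + y ^ 2 - 1) + δ * x * y + η * (x + y - 1)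

/-- its homogenisation -/
def FH (α β γ δ η p q p' q' : R) : R :=
  α * p ^ 2 * p' ^ 2 + β * p * p' * (p * q' + p' * q) +
    γ * (p ^ 2 * q' ^ 2 + p' ^ 2 * q ^ 2 - q ^ 2 * q' ^ 2) + δ * p * p' * q * q' +
    η * (p * q' + p' * q - q * q') * q * q'

end form

lemma FF_div {K : Type} [Field K] {α β γ δ η p q p' q' : K} (hq : q ≠ 0) (hq' : q' ≠ 0)
    (h : FH α β γ δ η p q p' q' = 0) : FF α β γ δ η (p / q) (p' / q') = 0 := by
  have e : FF α β γ δ η (p / q) (p' / q') * (q ^ 2 * q' ^ 2) = FH α β γ δ η p q p' q' := by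
    unfold FF FH
    field_simp
  have h2 : q ^ 2 * q' ^ 2 ≠ 0 := mul_ne_zero (pow_ne_zero 2 hq) (pow_ne_zero 2 hq')
  rw [h] at e
  exact (mul_eq_zero.1 e).resolve_right h2

/-- the sequence `1, 0, -1, -3, -8, …` -/
def uu : ℕ → ℤ
  | 0 => 1
  | 1 => 0
  | n + 2 => 3 * uu (n + 1) - uu n

lemma uu_step (n : ℕ) : uu (n + 1) < uu n ∧ uu (n + 1) ≤ 0 := by
  induction n with
  | zero => simp [uu]
  | succ n ih =>
    have e : uu (n + 1 + 1) = 3 * uu (n + 1) - uu n := rfl
    rw [e]
    constructor <;> omega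

lemma uu_anti : StrictAnti uu := strictAnti_nat_of_succ_lt fun n => (uu_step n).1

variable {K : Type} [Field K]

/-- the degree of a pair of polynomials -/
noncomputable def dg (P Q : K[X]) : ℕ := max P.natDegree Q.natDegree

lemma natDegree_mul3 {A B C : K[X]} {a b c : ℕ} (hA : A.natDegree ≤ a) (hB : B.natDegree ≤ b)
    (hC : C.natDegree ≤ c) : (A * B * C).natDegree ≤ a + b + c :=
  natDegree_mul_le_of_le (natDegree_mul_le_of_le hA hB) hC

/-- one step -/
theorem step {e : ℕ} {α β γ δ η : K[X]} (hα : α.natDegree ≤ e) (hβ : β.natDegree ≤ e)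
    (hγ : γ.natDegree ≤ e) (hδ : δ.natDegree ≤ e) (hη : η.natDegree ≤ e)
    (hα0 : α.eval 0 = 0) (hβ0 : β.eval 0 = 0) (hγ0 : γ.eval 0 = 1) (hδ0 : δ.eval 0 = -3)
    (hη0 : η.eval 0 = 0) {P Q P' Q' : K[X]} {u u' : K} (hc : IsCoprime P Q)
    (hc' : IsCoprime P' Q')
    (hQ : Q.eval 0 ≠ 0) (hQ' : Q'.eval 0 ≠ 0) (hP : P.eval 0 = u * Q.eval 0)
    (hP' : P'.eval 0 = u' * Q'.eval 0) (hF : FH α β γ δ η P Q P' Q' = 0) :
    ∃ P'' Q'' : K[X], IsCoprime P'' Q'' ∧ Q''.eval 0 ≠ 0 ∧
      P''.eval 0 = (3 * u' - u) * Q''.eval 0 ∧ FH α β γ δ η P' Q' P'' Q'' = 0 ∧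
      dg P'' Q'' + dg P Q ≤ 2 * dg P' Q' + e := by
  classical
  have hQne : Q ≠ 0 := by rintro rfl; exact hQ eval_zero
  set A : K[X] := α * P' ^ 2 + β * P' * Q' + γ * Q' ^ 2 with hA
  set B : K[X] := β * P' ^ 2 + δ * P' * Q' + η * Q' ^ 2 with hB
  set C : K[X] := γ * P' ^ 2 + η * P' * Q' - (γ + η) * Q' ^ 2 with hC
  have hF1 : A * P ^ 2 + B * P * Q + C * Q ^ 2 = 0 := by
    rw [← hF, hA, hB, hC]
    unfold FH
    ring
  -- division
  have h1 : Q ∣ A := by
    have h2 : Q ∣ A * P ^ 2 := ⟨-(B * P + C * Q), by linear_combination hF1⟩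
    exact (hc.symm.pow_right).dvd_of_dvd_mul_right h2
  obtain ⟨A', hA'⟩ := h1
  have h3 : A' * P ^ 2 + B * P + C * Q = 0 := by
    have : Q * (A' * P ^ 2 + B * P + C * Q) = 0 := by
      rw [hA'] at hF1
      linear_combination hF1
    exact (mul_eq_zero.1 this).resolve_left hQne
  have h4 : Q ∣ A' * P + B := by
    have h5 : Q ∣ (A' * P + B) * P := ⟨-C, by linear_combination h3⟩
    exact hc.symm.dvd_of_dvd_mul_right h5
  obtain ⟨C0, hC0⟩ := h4
  set C' : K[X] := -C0 with hC'
  have hBe : B = -(Q * C') - P * A' := by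
    rw [hC']
    linear_combination hC0
  have hCe : C = P * C' := by
    have : Q * (C - P * C') = 0 := by
      rw [hBe] at h3
      linear_combination h3
    have := (mul_eq_zero.1 this).resolve_left hQne
    exact sub_eq_zero.1 this
  -- values at zero
  have eA : A.eval 0 = Q'.eval 0 ^ 2 := by
    rw [hA]
    simp [hα0, hβ0, hγ0]
  have eB : B.eval 0 = -3 * (P'.eval 0 * Q'.eval 0) := by
    rw [hB]
    simp only [eval_add, eval_mul, eval_pow, hβ0, hδ0, hη0]
    ring
  have eA' : Q.eval 0 * A'.eval 0 = Q'.eval 0 ^ 2 := by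
    rw [← eval_mul, ← hA', eA]
  have hA'0 : A'.eval 0 ≠ 0 := by
    intro h
    rw [h, mul_zero] at eA'
    exact pow_ne_zero 2 hQ' eA'.symm
  have hA'ne : A' ≠ 0 := by rintro h; rw [h] at hA'0; exact hA'0 eval_zero
  have eC' : C'.eval 0 = (3 * u' - u) * A'.eval 0 := by
    have e1 : Q.eval 0 * C'.eval 0 = - B.eval 0 - P.eval 0 * A'.eval 0 := by
      rw [hBe]
      simp only [eval_sub, eval_mul, eval_neg]
      ring
    have e2 : Q.eval 0 * C'.eval 0 = Q.eval 0 * ((3 * u' - u) * A'.eval 0) := by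
      rw [e1, eB, hP, hP']
      linear_combination -3 * u' * eA'
    exact mul_left_cancel₀ hQ e2
  -- the greatest common divisor
  set g : K[X] := EuclideanDomain.gcd C' A' with hg
  have hgne : g ≠ 0 := by
    intro h
    exact hA'ne (EuclideanDomain.gcd_eq_zero_iff.1 h).2
  obtain ⟨P'', hP''⟩ : g ∣ C' := EuclideanDomain.gcd_dvd_left _ _
  obtain ⟨Q'', hQ''⟩ : g ∣ A' := EuclideanDomain.gcd_dvd_right _ _
  have hcop : IsCoprime P'' Q'' := by
    have hbez := EuclideanDomain.gcd_eq_gcd_ab C' A'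
    refine ⟨EuclideanDomain.gcdA C' A', EuclideanDomain.gcdB C' A', ?_⟩
    have : g * (EuclideanDomain.gcdA C' A' * P'' + EuclideanDomain.gcdB C' A' * Q'') = g * 1 := by
      rw [mul_one]
      conv_rhs => rw [hg, hbez]
      linear_combination (-EuclideanDomain.gcdA C' A') * hP'' -
        EuclideanDomain.gcdB C' A' * hQ''
    exact mul_left_cancel₀ hgne this
  have hg0 : g.eval 0 ≠ 0 := by
    intro h
    apply hA'0
    rw [hQ'', eval_mul, h, zero_mul]
  refine ⟨P'', Q'', hcop, ?_, ?_, ?_, ?_⟩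
  · intro h
    apply hA'0
    rw [hQ'', eval_mul, h, mul_zero]
  · have : g.eval 0 * P''.eval 0 = g.eval 0 * ((3 * u' - u) * Q''.eval 0) := by
      rw [← eval_mul, ← hP'', eC', hQ'', eval_mul]
      ring
    exact mul_left_cancel₀ hg0 this
  · have : g ^ 2 * FH α β γ δ η P' Q' P'' Q'' = 0 := by
      have e1 : g ^ 2 * FH α β γ δ η P' Q' P'' Q'' = A * (g * P'') ^ 2 + B * (g * P'') * (g * Q'') +
          C * (g * Q'') ^ 2 := by
        rw [hA, hB, hC]
        unfold FH
        ring
      rw [e1, ← hP'', ← hQ'', hA', hBe, hCe]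
      ring
    exact (mul_eq_zero.1 this).resolve_left (pow_ne_zero 2 hgne)
  · -- degrees
    set m := dg P Q with hm
    set m' := dg P' Q' with hm'
    set M := dg C' A' with hM
    have hle : M + m ≤ 2 * m' + e := by
      have bP' : P'.natDegree ≤ m' := le_max_left _ _
      have bQ' : Q'.natDegree ≤ m' := le_max_right _ _
      have hPP : ∀ U V W : K[X], U.natDegree ≤ e → V.natDegree ≤ m' → W.natDegree ≤ m' →
          (U * V * W).natDegree ≤ 2 * m' + e := by
        intro U V W hU hV hW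
        refine (natDegree_mul3 hU hV hW).trans (by omega)
      have dA : A.natDegree ≤ 2 * m' + e := by
        rw [hA, show α * P' ^ 2 + β * P' * Q' + γ * Q' ^ 2 =
          α * P' * P' + β * P' * Q' + γ * Q' * Q' by ring]
        exact natDegree_add_le_of_degree_le (natDegree_add_le_of_degree_le
          (hPP _ _ _ hα bP' bP') (hPP _ _ _ hβ bP' bQ')) (hPP _ _ _ hγ bQ' bQ')
      have dB : B.natDegree ≤ 2 * m' + e := by
        rw [hB, show β * P' ^ 2 + δ * P' * Q' + η * Q' ^ 2 =
          β * P' * P' + δ * P' * Q' + η * Q' * Q' by ring]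
        exact natDegree_add_le_of_degree_le (natDegree_add_le_of_degree_le
          (hPP _ _ _ hβ bP' bP') (hPP _ _ _ hδ bP' bQ')) (hPP _ _ _ hη bQ' bQ')
      have dC : C.natDegree ≤ 2 * m' + e := by
        rw [hC, show γ * P' ^ 2 + η * P' * Q' - (γ + η) * Q' ^ 2 =
          γ * P' * P' + η * P' * Q' - (γ + η) * Q' * Q' by ring]
        exact (natDegree_sub_le_of_le (natDegree_add_le_of_degree_le
          (hPP _ _ _ hγ bP' bP') (hPP _ _ _ hη bP' bQ')) (hPP _ _ _
            (natDegree_add_le_of_degree_le hγ hη) bQ' bQ')).trans (max_self _).le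
      -- leading coefficients
      have bP : P.natDegree ≤ m := le_max_left _ _
      have bQ : Q.natDegree ≤ m := le_max_right _ _
      have bC' : C'.natDegree ≤ M := le_max_left _ _
      have bA' : A'.natDegree ≤ M := le_max_right _ _
      have key : A.coeff (M + m) ≠ 0 ∨ B.coeff (M + m) ≠ 0 ∨ C.coeff (M + m) ≠ 0 := by
        have cA : A.coeff (M + m) = A'.coeff M * Q.coeff m := by
          rw [hA', mul_comm, coeff_mul_add_eq_of_natDegree_le bA' bQ]
        have cC : C.coeff (M + m) = C'.coeff M * P.coeff m := by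
          rw [hCe, mul_comm, coeff_mul_add_eq_of_natDegree_le bC' bP]
        have cB : B.coeff (M + m) = -(C'.coeff M * Q.coeff m) - A'.coeff M * P.coeff m := by
          rw [hBe, coeff_sub, coeff_neg, mul_comm Q, mul_comm P,
            coeff_mul_add_eq_of_natDegree_le bC' bQ, coeff_mul_add_eq_of_natDegree_le bA' bP]
        have n1 : P.coeff m ≠ 0 ∨ Q.coeff m ≠ 0 := by
          by_contra hcon
          push Not at hcon
          obtain ⟨c1, c2⟩ := hcon
          rcases le_total P.natDegree Q.natDegree with h | h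
          · have : m = Q.natDegree := max_eq_right h
            rw [this] at c2
            exact hQne (leadingCoeff_eq_zero.1 c2)
          · have : m = P.natDegree := max_eq_left h
            rw [this] at c1
            have hP0 : P = 0 := leadingCoeff_eq_zero.1 c1
            rw [this, hP0, natDegree_zero] at c2
            have hQd : Q.natDegree = 0 := by
              rw [hP0, natDegree_zero] at h
              omega
            rw [← hQd] at c2
            exact hQne (leadingCoeff_eq_zero.1 c2)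
        have n2 : C'.coeff M ≠ 0 ∨ A'.coeff M ≠ 0 := by
          by_contra hcon
          push Not at hcon
          obtain ⟨c1, c2⟩ := hcon
          rcases le_total C'.natDegree A'.natDegree with h | h
          · have : M = A'.natDegree := max_eq_right h
            rw [this] at c2
            exact hA'ne (leadingCoeff_eq_zero.1 c2)
          · have : M = C'.natDegree := max_eq_left h
            rw [this] at c1
            have hP0 : C' = 0 := leadingCoeff_eq_zero.1 c1
            rw [this, hP0, natDegree_zero] at c2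
            have hQd : A'.natDegree = 0 := by
              rw [hP0, natDegree_zero] at h
              omega
            rw [← hQd] at c2
            exact hA'ne (leadingCoeff_eq_zero.1 c2)
        rw [cA, cB, cC]
        by_contra hcon
        push Not at hcon
        obtain ⟨k1, k2, k3⟩ := hcon
        rcases mul_eq_zero.1 k1 with h | h
        · have h5 : C'.coeff M ≠ 0 := n2.resolve_right (not_not.2 h)
          have h6 := (mul_eq_zero.1 k3).resolve_left h5
          have h7 : Q.coeff m ≠ 0 := n1.resolve_left (not_not.2 h6)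
          rw [h, zero_mul, sub_zero, neg_eq_zero] at k2
          exact mul_ne_zero h5 h7 k2
        · have h5 : P.coeff m ≠ 0 := n1.resolve_right (not_not.2 h)
          have h6 := (mul_eq_zero.1 k3).resolve_right h5
          have h7 : A'.coeff M ≠ 0 := n2.resolve_left (not_not.2 h6)
          rw [h6, zero_mul, neg_zero, zero_sub, neg_eq_zero] at k2
          exact mul_ne_zero h7 h5 k2
      rcases key with h | h | h
      · exact (le_natDegree_of_ne_zero h).trans dA
      · exact (le_natDegree_of_ne_zero h).trans dB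
      · exact (le_natDegree_of_ne_zero h).trans dC
    have hle2 : dg P'' Q'' ≤ M := by
      rw [hM, dg, dg]
      refine max_le_max ?_ ?_
      · by_cases h : P'' = 0
        · rw [h, natDegree_zero]; exact Nat.zero_le _
        · rw [hP'', natDegree_mul hgne h]; omega
      · have h : Q'' ≠ 0 := by
          rintro h
          rw [h, mul_zero] at hQ''
          exact hA'ne hQ''
        rw [hQ'', natDegree_mul hgne h]; omega
    omega

/-- the state of the construction -/
structure St (α β γ δ η : K[X]) (e n : ℕ) (P Q P' Q' : K[X]) : Prop where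
  c : IsCoprime P Q
  c' : IsCoprime P' Q'
  q : Q.eval 0 ≠ 0
  q' : Q'.eval 0 ≠ 0
  p : P.eval 0 = (uu n : K) * Q.eval 0
  p' : P'.eval 0 = (uu (n + 1) : K) * Q'.eval 0
  F : FH α β γ δ η P Q P' Q' = 0
  d : dg P' Q' ≤ dg P Q + n * e
  dd : 2 * dg P Q ≤ e * (n * (n - 1))

/-- the sequence of curves -/
theorem exists_seq {e : ℕ} {α β γ δ η : K[X]} (hα : α.natDegree ≤ e) (hβ : β.natDegree ≤ e)
    (hγ : γ.natDegree ≤ e) (hδ : δ.natDegree ≤ e) (hη : η.natDegree ≤ e)
    (hα0 : α.eval 0 = 0) (hβ0 : β.eval 0 = 0) (hγ0 : γ.eval 0 = 1) (hδ0 : δ.eval 0 = -3)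
    (hη0 : η.eval 0 = 0) :
    ∃ P Q : ℕ → K[X], ∀ n, IsCoprime (P n) (Q n) ∧ (Q n).eval 0 ≠ 0 ∧
      (P n).eval 0 = (uu n : K) * (Q n).eval 0 ∧ FH α β γ δ η (P n) (Q n) (P (n + 1)) (Q (n + 1)) = 0 ∧
      2 * dg (P n) (Q n) ≤ e * (n * (n - 1)) := by
  classical
  have hstep : ∀ n : ℕ, ∀ s : { s : (K[X] × K[X]) × (K[X] × K[X]) //
      St α β γ δ η e n s.1.1 s.1.2 s.2.1 s.2.2 }, ∃ t : K[X] × K[X],
      St α β γ δ η e (n + 1) s.1.2.1 s.1.2.2 t.1 t.2 := by
    rintro n ⟨⟨⟨P, Q⟩, ⟨P', Q'⟩⟩, h⟩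
    obtain ⟨P'', Q'', h1, h2, h3, h4, h5⟩ := step hα hβ hγ hδ hη hα0 hβ0 hγ0 hδ0 hη0 h.c h.c' h.q h.q'
      h.p h.p' h.F
    refine ⟨(P'', Q''), ⟨h.c', h1, h.q', h2, h.p', ?_, h4, ?_, ?_⟩⟩
    · rw [h3]
      congr 1
      have : uu (n + 1 + 1) = 3 * uu (n + 1) - uu n := rfl
      rw [this]
      push_cast
      ring
    · have := h.d
      simp only at this ⊢
      nlinarith
    · have h6 := h.d
      have h7 := h.dd
      simp only at h6 h7 ⊢
      rcases n with _ | n
      · simp at h6 h7 ⊢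
        omega
      · simp only [Nat.add_sub_cancel] at h7 ⊢
        nlinarith
  choose f hf using hstep
  have h0 : St α β γ δ η e 0 (1 : K[X]) 1 0 1 := by
    refine ⟨isCoprime_one_left, isCoprime_one_right, by simp, by simp, by simp [uu], by simp [uu],
      ?_, by simp [dg], by simp [dg]⟩
    unfold FH
    ring
  let seq : (n : ℕ) → { s : (K[X] × K[X]) × (K[X] × K[X]) //
      St α β γ δ η e n s.1.1 s.1.2 s.2.1 s.2.2 } := fun n =>
    Nat.rec (motive := fun n => { s : (K[X] × K[X]) × (K[X] × K[X]) //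
      St α β γ δ η e n s.1.1 s.1.2 s.2.1 s.2.2 }) ⟨((1, 1), (0, 1)), h0⟩
      (fun n s => ⟨(s.1.2, f n s), hf n s⟩) n
  have hseq : ∀ n, (seq (n + 1)).1.1 = (seq n).1.2 := fun n => rfl
  refine ⟨fun n => (seq n).1.1.1, fun n => (seq n).1.1.2, fun n => ?_⟩
  have h := (seq n).2
  refine ⟨h.c, h.q, h.p, ?_, h.dd⟩
  have e1 : (seq (n + 1)).1.1.1 = (seq n).1.2.1 := by rw [hseq]
  have e2 : (seq (n + 1)).1.1.2 = (seq n).1.2.2 := by rw [hseq]
  simp only [e1, e2]
  exact h.F

end Pool.Agent.Helper892.QR
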